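import Mathlib
import Pool.Agent.Lib.MP_31b0c0_gt.Defs
import Pool.Agent.Lib.MP_31b0c0_gt.Main
import Pool.Agent.Lib.MP_31b0c0_gt.Grp

/-!
# Sufficiency fails in the realization problem for Alexander polynomials of 3-manifolds

Let `H` be a finitely generated abelian group of rank one whose torsion subgroup cannot be
generated by two elements. Then `D = |Tors H| t + (t - 1)²` satisfies the two necessary conditions
(symmetry of even degree, `D(1) = ± |Tors H|`), but no closed connected 3-manifold (orientable or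
not) realizes `(H, D)`.

Idea: write `A = H₁(M̃)`. The determinant of some square matrix of relations of `A` takes the
value `|A / (t - 1) A| = |Tors H| = ± D(1)` at `t = 1`; it is divisible by `D`, so it is `D` times a
`j` with `j(1) = ± 1`. On the other hand `A / (p, t - 1) A = (Tors H) / p` has dimension `r`, so
all these determinants lie in `(p, t - 1) ^ r`. Hence `D` lies in `(p, t - 1) ^ r`.
-/

open LaurentPolynomial

namespace Pool.Agent.Results.MP_31b0c0_gt.SufficiencyFails

open Pool.Agent.MP31b0c0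

/-- For `H` of rank one whose torsion subgroup surjects onto `(ℤ/p)³`, the polynomial
`|Tors H| t + (t - 1)²` satisfies the two conditions but is not realized. -/
theorem badPoly_spec {H : Type} [AddCommGroup H] [Module.Finite ℤ H]
    (hrank : Module.finrank ℤ H = 1) (p : ℕ) (hp : p.Prime)
    (φ : AddCommGroup.torsion H →+ (Fin 3 → ZMod p)) (hφ : Function.Surjective φ) :
    SatisfiesConditions H (badPoly (Nat.card (AddCommGroup.torsion H))) ∧
      ∀ (M : Type) [TopologicalSpace M] [PathConnectedSpace M] [LocallyPathConnectedSpace M],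
        ¬ Realizes M H (badPoly (Nat.card (AddCommGroup.torsion H))) := by
  have : Fact p.Prime := ⟨hp⟩
  refine ⟨⟨⟨2, even_two, invert_badPoly _⟩, by simp [ev1_badPoly]⟩, ?_⟩
  intro M _ _ _ hreal
  have h1 := obstruction hrank (by simp [ev1_badPoly]) hreal p 3 φ hφ
  refine not_X_cube_dvd_theta_badPoly p _ ?_ h1
  -- `p` divides the order of the torsion subgroup
  have hfin : Finite (AddCommGroup.torsion H) := finite_torsion
  have h2 : Nat.card (Fin 3 → ZMod p) ∣ Nat.card (AddCommGroup.torsion H) :=
    AddSubgroup.card_dvd_of_surjective φ hφ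
  have h3 : Nat.card (Fin 3 → ZMod p) = p ^ 3 := by
    simp
  rw [h3] at h2
  exact (dvd_pow_self p (by norm_num)).trans h2

/-- If the torsion subgroup is not generated by two elements, it surjects onto some `(ℤ/p)³`. -/
theorem exists_surjection_torsion {H : Type} [AddCommGroup H] [Module.Finite ℤ H]
    (h3 : ∀ a b : H, AddSubgroup.closure {a, b} ≠ AddCommGroup.torsion H) :
    ∃ p : ℕ, p.Prime ∧ ∃ φ : AddCommGroup.torsion H →+ (Fin 3 → ZMod p),
      Function.Surjective φ := by
  have hfin : Finite (AddCommGroup.torsion H) := finite_torsion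
  refine exists_surjection fun a b hab => h3 a b ?_
  have h := congrArg (AddSubgroup.map (AddCommGroup.torsion H).subtype) hab
  rw [AddMonoidHom.map_closure, Set.image_pair, ← AddMonoidHom.range_eq_map,
    AddSubgroup.range_subtype] at h
  exact h

/-- The group `ℤ × (ℤ/2)³`. -/
abbrev H0 : Type := ℤ × (Fin 3 → ZMod 2)

lemma finrank_eq_one {G : Type} [AddCommGroup G] [AddGroup.FG G] (f : G →+ ℤ) (hf : Function.Surjective f)
    (htor : ∀ x, f x = 0 → 2 • x = 0) : Module.finrank ℤ G = 1 := by
  have hmf : Module.Finite ℤ G := Module.Finite.iff_addGroup_fg.2 inferInstance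
  have h1 := Submodule.finrank_quotient_add_finrank (LinearMap.ker f.toIntLinearMap)
  have h2 : Module.finrank ℤ (G ⧸ LinearMap.ker f.toIntLinearMap) = 1 := by
    rw [(f.toIntLinearMap.quotKerEquivOfSurjective hf).finrank_eq, Module.finrank_self]
  have h3 : Module.finrank ℤ (LinearMap.ker f.toIntLinearMap) = 0 := by
    rw [Module.finrank_eq_zero_iff_isTorsion]
    rintro ⟨x, hx⟩
    refine ⟨⟨2, by simp⟩, ?_⟩
    apply Subtype.ext
    change (2 : ℤ) • x = 0
    rw [← htor x hx, ← natCast_zsmul]
    rfl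
  rw [h2, h3] at h1
  exact h1.symm

lemma two_smul_eq_zero (v : Fin 3 → ZMod 2) : 2 • v = 0 := by
  ext i
  rw [Pi.smul_apply, nsmul_eq_mul]
  have : ((2 : ℕ) : ZMod 2) = 0 := rfl
  rw [this, zero_mul]
  rfl

lemma fg_H0 : AddGroup.FG H0 := Module.Finite.iff_addGroup_fg.1 inferInstance

lemma finrank_H0 : Module.finrank ℤ H0 = 1 := by
  have := fg_H0
  refine finrank_eq_one (AddMonoidHom.fst ℤ (Fin 3 → ZMod 2)) Prod.fst_surjective ?_
  rintro ⟨a, v⟩ ha
  have ha' : a = 0 := ha
  subst ha'
  rw [Prod.smul_mk, two_smul_eq_zero]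
  rfl

/-- **The sufficiency of the two conditions fails.** -/
theorem result :
    (∀ (H : Type) [AddCommGroup H] [AddGroup.FG H], Module.finrank ℤ H = 1 →
      (∀ a b : H, AddSubgroup.closure {a, b} ≠ AddCommGroup.torsion H) →
        ∀ D : ℤ[T;T⁻¹],
          D = C (Nat.card (AddCommGroup.torsion H) : ℤ) * T 1 + (T 1 - 1) ^ 2 →
          SatisfiesConditions H D ∧
          ∀ (M : Type) [TopologicalSpace M] [T2Space M] [CompactSpace M] [ConnectedSpace M]
            [ChartedSpace (EuclideanSpace ℝ (Fin 3)) M], ¬ Realizes M H D) ∧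
    ¬ (∀ (H : Type) [AddCommGroup H] [AddGroup.FG H], Module.finrank ℤ H = 1 →
        ∀ D : ℤ[T;T⁻¹], SatisfiesConditions H D →
          ∃ (M : Type) (_ : TopologicalSpace M) (_ : T2Space M) (_ : CompactSpace M)
            (_ : ConnectedSpace M) (_ : ChartedSpace (EuclideanSpace ℝ (Fin 3)) M),
            Realizes M H D) := by
  have hmfd : ∀ (M : Type) [TopologicalSpace M] [ConnectedSpace M]
      [ChartedSpace (EuclideanSpace ℝ (Fin 3)) M],
      LocallyPathConnectedSpace M ∧ PathConnectedSpace M := by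
    intro M _ _ _
    have h1 : LocallyPathConnectedSpace M :=
      ChartedSpace.locallyPathConnectedSpace (EuclideanSpace ℝ (Fin 3)) M
    exact ⟨h1, pathConnectedSpace_iff_connectedSpace.2 inferInstance⟩
  constructor
  · intro H _ hfg hrank h3 D hD
    have hmf : Module.Finite ℤ H := Module.Finite.iff_addGroup_fg.2 hfg
    obtain ⟨p, hp, φ, hφ⟩ := exists_surjection_torsion h3
    obtain ⟨h4, h5⟩ := badPoly_spec hrank p hp φ hφ
    have hD' : D = badPoly (Nat.card (AddCommGroup.torsion H)) := hD
    rw [hD']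
    refine ⟨h4, ?_⟩
    intro M _ _ _ _ _
    obtain ⟨h6, h7⟩ := hmfd M
    exact h5 M
  · intro hall
    have hfg : AddGroup.FG H0 := fg_H0
    have hmf : Module.Finite ℤ H0 := Module.Finite.iff_addGroup_fg.2 hfg
    let φ : AddCommGroup.torsion H0 →+ (Fin 3 → ZMod 2) :=
      (AddMonoidHom.snd ℤ (Fin 3 → ZMod 2)).comp (AddCommGroup.torsion H0).subtype
    have hφ : Function.Surjective φ := by
      intro v
      refine ⟨⟨(0, v), ?_⟩, rfl⟩
      change IsOfFinAddOrder ((0, v) : H0)
      rw [isOfFinAddOrder_iff_nsmul_eq_zero]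
      refine ⟨2, by norm_num, ?_⟩
      rw [Prod.smul_mk, two_smul_eq_zero]
      rfl
    obtain ⟨h4, h5⟩ := badPoly_spec finrank_H0 2 Nat.prime_two φ hφ
    obtain ⟨M, i1, i2, i3, i4, i5, hreal⟩ := hall H0 finrank_H0 _ h4
    obtain ⟨h6, h7⟩ := hmfd M
    exact h5 M hreal

end Pool.Agent.Results.MP_31b0c0_gt.SufficiencyFails
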